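import Pool.Agent.R709.JB.Main

/-!
# The Jordan product of the multiplier algebra is jointly J-strict continuous on bounded sets

For every JB*-algebra `A` the product of two elements of the multiplier algebra `M(A)` belongs to
`M(A)`, and the product of `M(A)` is jointly J-strict continuous on bounded sets: if `x` and `y`
are bounded families in `M(A)` that converge J-strictly along filters `l` and `k` (for nets: the
filters `atTop` of the directed sets) to `x₀` and `y₀` in `M(A)`, then the family of all products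
`x i ∘ y j` converges J-strictly along `l ×ˢ k` to `x₀ ∘ y₀`.

The definitions are in `Pool.Agent.R709.JB.Defs`.
-/

set_option autoImplicit false

namespace Pool.Agent.Results.MP_2cba5e_an.JointStrict

open Pool.Agent.R709.JB

universe u v w

/-- The product of the multiplier algebra of a JB*-algebra is jointly J-strict continuous on
bounded sets. -/
theorem result {A : Type u} [NormedAddCommGroup A] [NormedSpace ℂ A] [CompleteSpace A]
    (J : JBStar A) :
    (∀ x ∈ J.Multiplier, ∀ y ∈ J.Multiplier, J.bmul x y ∈ J.Multiplier) ∧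
    ∀ (Λ : Type v) (Μ : Type w) (l : Filter Λ) (k : Filter Μ)
      (x : Λ → StrongDual ℂ (StrongDual ℂ A)) (y : Μ → StrongDual ℂ (StrongDual ℂ A))
      (x₀ y₀ : StrongDual ℂ (StrongDual ℂ A)),
      (∀ i, x i ∈ J.Multiplier) → (∀ j, y j ∈ J.Multiplier) →
      x₀ ∈ J.Multiplier → y₀ ∈ J.Multiplier →
      (∃ C : ℝ, ∀ i, ‖x i‖ ≤ C) → (∃ C : ℝ, ∀ j, ‖y j‖ ≤ C) →
      J.JStrict l x x₀ → J.JStrict k y y₀ →
        J.JStrict (l ×ˢ k) (fun p : Λ × Μ => J.bmul (x p.1) (y p.2)) (J.bmul x₀ y₀) :=
  ⟨fun _ hx _ hy => J.mul_mem hx hy,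
    fun _ _ l k x y x₀ y₀ hx hy hx₀ hy₀ bx by' hlx hky =>
      J.joint l k x y x₀ y₀ hx hy hx₀ hy₀ bx by' hlx hky⟩

end Pool.Agent.Results.MP_2cba5e_an.JointStrict
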